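import Pool.Agent.Helper60.SB.Defs4
import Pool.Agent.Helper42.SB.H1
import Pool.Agent.Helper64.SB.Upd

/-!
MP_7fc85e_an, stage 3A, module L3a: elementary facts about the kernel of the lower bounds.
-/

open Finset MeasureTheory
open scoped ENNReal Real

namespace Pool.Agent.Helper23.SB

open Pool.Agent.Helper60.SB Pool.Agent.Helper42.SB Pool.Agent.Helper64.SB

theorem ub_continuous (u : ℝ → ℝ) (hu : Continuous u)
    (hsupp : ∀ t, (t ≤ 1 / 10 ∨ 9 / 10 ≤ t) → u t = 0) (s c : ℕ) : Continuous (ub u s c) := by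
  by_cases hc : c < 2 ^ s
  · rw [continuous_iff_continuousAt]
    intro x
    rcases ub_local u hsupp hc x with ⟨b, hb⟩ | hb
    · refine ContinuousAt.congr_of_eventuallyEq ?_ hb
      exact (hu.comp ((continuous_const.mul continuous_id).add continuous_const)).continuousAt
    · exact continuousAt_const.congr_of_eventuallyEq hb
  · push Not at hc
    have h0 : ub u s c = fun _ => 0 := by
      funext x
      unfold ub
      apply hsupp
      left
      have h1 := Int.fract_lt_one (x / (2 * π))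
      have h2 : (2 : ℝ) ^ s * Int.fract (x / (2 * π)) ≤ 2 ^ s * 1 :=
        mul_le_mul_of_nonneg_left h1.le (by positivity)
      have h3 : (2 : ℝ) ^ s ≤ c := by exact_mod_cast hc
      linarith
    rw [h0]
    exact continuous_const

theorem ub_periodic (u : ℝ → ℝ) (s c : ℕ) (x : ℝ) : ub u s c (x + 2 * π) = ub u s c x :=
  Pool.Agent.Helper42.SB.ub_periodic u s c x

theorem integral_tor1_real (f : ℝ → ℝ) :
    ∫ y, f y ∂tor1 = (2 * π)⁻¹ * ∫ y in (0 : ℝ)..(2 * π), f y := by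
  unfold tor1
  rw [integral_smul_measure, ENNReal.toReal_inv, ENNReal.toReal_ofReal Real.two_pi_pos.le,
    intervalIntegral.integral_of_le Real.two_pi_pos.le, ← integral_Ico_eq_integral_Ioc]
  rfl

theorem integral_ub_pow (u : ℝ → ℝ) (hu : Continuous u)
    (hsupp : ∀ t, (t ≤ 1 / 10 ∨ 9 / 10 ≤ t) → u t = 0) (k : ℕ) (hk : 1 ≤ k) (s c : ℕ)
    (hc : c < 2 ^ s) : ∫ x, ub u s c x ^ k ∂tor1 = (∫ t, u t ^ k) / 2 ^ s := by
  have hpi : (0 : ℝ) < 2 * π := by positivity
  have hs : (0 : ℝ) < 2 ^ s := by positivity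
  rw [integral_tor1_real]
  have h1 : ∫ y in (0 : ℝ)..(2 * π), ub u s c y ^ k =
      ∫ y in (0 : ℝ)..(2 * π), (fun t => u t ^ k) ((2 ^ s / (2 * π)) * y - c) := by
    apply intervalIntegral.integral_congr_Ioo_of_le hpi.le
    intro y hy
    have h2 : Int.fract (y / (2 * π)) = y / (2 * π) := by
      rw [Int.fract_eq_self]
      exact ⟨div_nonneg hy.1.le hpi.le, (div_lt_one hpi).mpr hy.2⟩
    have h3 : ub u s c y = u ((2 ^ s / (2 * π)) * y - c) := by
      unfold ub
      rw [h2]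
      congr 1
      ring
    simp only [h3]
  have hne : (2 : ℝ) ^ s / (2 * π) ≠ 0 := by positivity
  rw [h1, intervalIntegral.integral_comp_mul_sub (fun t => u t ^ k) hne (c : ℝ)]
  have h2 : ∫ t in (2 ^ s / (2 * π) * 0 - (c : ℝ))..(2 ^ s / (2 * π) * (2 * π) - c), u t ^ k =
      ∫ t, u t ^ k := by
    have e1 : 2 ^ s / (2 * π) * 0 - (c : ℝ) = -c := by ring
    have e2 : 2 ^ s / (2 * π) * (2 * π) - (c : ℝ) = 2 ^ s - c := by field_simp
    rw [e1, e2, intervalIntegral.integral_of_le, ← integral_indicator measurableSet_Ioc]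
    · congr 1
      funext t
      by_cases ht : t ∈ Set.Ioc (-(c : ℝ)) (2 ^ s - c)
      · rw [Set.indicator_of_mem ht]
      · rw [Set.indicator_of_notMem ht]
        have h3 : u t = 0 := by
          apply hsupp
          simp only [Set.mem_Ioc, not_and_or, not_lt, not_le] at ht
          have hc0 : (0 : ℝ) ≤ c := Nat.cast_nonneg c
          have hc1 : (c : ℝ) + 1 ≤ 2 ^ s := by exact_mod_cast hc
          rcases ht with h | h
          · left; linarith
          · right; linarith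
        rw [h3, zero_pow (by omega)]
    · have hc0 : (0 : ℝ) ≤ c := Nat.cast_nonneg c
      have hc1 : (c : ℝ) + 1 ≤ 2 ^ s := by exact_mod_cast hc
      linarith
  rw [h2, smul_eq_mul]
  field_simp

theorem kb_symm {d : ℕ} (u : ℝ → ℝ) (Sh : Finset (Fin d → ℕ)) (x y : Fin d → ℝ) :
    kb u Sh x y = kb u Sh y x := by
  unfold kb kb1
  apply Finset.sum_congr rfl
  intro s _
  apply Finset.prod_congr rfl
  intro j _
  apply Finset.sum_congr rfl
  intro c _
  ring

theorem kb_eq {d : ℕ} (u : ℝ → ℝ) (Sh : Finset (Fin d → ℕ)) (x y : Fin d → ℝ) :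
    kb u Sh x y = ∑ s ∈ Sh, ∑ c ∈ cells s, sblk u s c x * sblk u s c y := by
  unfold kb kb1 cells sblk
  apply Finset.sum_congr rfl
  intro s _
  rw [Finset.prod_univ_sum]
  apply Finset.sum_congr rfl
  intro c _
  rw [Finset.prod_mul_distrib]

theorem kb1_continuous (u : ℝ → ℝ) (hu : Continuous u)
    (hsupp : ∀ t, (t ≤ 1 / 10 ∨ 9 / 10 ≤ t) → u t = 0) (s : ℕ) :
    Continuous fun z : ℝ × ℝ => kb1 u s z.1 z.2 := by
  unfold kb1
  apply continuous_finsetSum
  intro c _
  exact ((ub_continuous u hu hsupp s c).comp continuous_fst).mul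
    ((ub_continuous u hu hsupp s c).comp continuous_snd)

theorem kb_continuous {d : ℕ} (u : ℝ → ℝ) (hu : Continuous u)
    (hsupp : ∀ t, (t ≤ 1 / 10 ∨ 9 / 10 ≤ t) → u t = 0) (Sh : Finset (Fin d → ℕ)) :
    Continuous fun z : (Fin d → ℝ) × (Fin d → ℝ) => kb u Sh z.1 z.2 := by
  unfold kb
  apply continuous_finsetSum
  intro s _
  apply continuous_finsetProd
  intro j _
  have h1 : Continuous fun z : (Fin d → ℝ) × (Fin d → ℝ) => (z.1 j, z.2 j) :=
    ((continuous_apply j).comp continuous_fst).prodMk ((continuous_apply j).comp continuous_snd)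
  exact (kb1_continuous u hu hsupp (s j)).comp h1

theorem u_bounded (u : ℝ → ℝ) (hu : Continuous u)
    (hsupp : ∀ t, (t ≤ 1 / 10 ∨ 9 / 10 ≤ t) → u t = 0) : ∃ B, 0 ≤ B ∧ ∀ t, |u t| ≤ B := by
  obtain ⟨B, hB⟩ := (isCompact_Icc (a := (0 : ℝ)) (b := 1)).exists_bound_of_continuousOn
    hu.continuousOn
  refine ⟨max B 0, le_max_right _ _, fun t => ?_⟩
  by_cases ht : t ∈ Set.Icc (0 : ℝ) 1
  · exact (hB t ht).trans (le_max_left _ _)
  · rw [hsupp t, abs_zero]
    · exact le_max_right _ _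
    · simp only [Set.mem_Icc, not_and_or, not_le] at ht
      rcases ht with h | h
      · left; linarith
      · right; linarith

theorem ub_bounded (u : ℝ → ℝ) {B : ℝ} (hB : ∀ t, |u t| ≤ B) (s c : ℕ) (x : ℝ) :
    |ub u s c x| ≤ B := hB _

theorem kb1_bounded (u : ℝ → ℝ) {B : ℝ} (hB : ∀ t, |u t| ≤ B) (s : ℕ) (x y : ℝ) :
    |kb1 u s x y| ≤ 2 ^ s * (B * B) := by
  unfold kb1
  have hB0 : 0 ≤ B := (abs_nonneg _).trans (hB 0)
  calc |∑ c ∈ range (2 ^ s), ub u s c x * ub u s c y|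
      ≤ ∑ c ∈ range (2 ^ s), |ub u s c x * ub u s c y| := Finset.abs_sum_le_sum_abs _ _
    _ ≤ ∑ c ∈ range (2 ^ s), B * B := by
        apply Finset.sum_le_sum
        intro c _
        rw [abs_mul]
        exact mul_le_mul (ub_bounded u hB s c x) (ub_bounded u hB s c y) (abs_nonneg _) hB0
    _ = 2 ^ s * (B * B) := by simp

theorem integral_kb1 (u : ℝ → ℝ) (hu : Continuous u)
    (hsupp : ∀ t, (t ≤ 1 / 10 ∨ 9 / 10 ≤ t) → u t = 0) (hint : ∫ t, u t = 0)
    (s : ℕ) (x : ℝ) : ∫ y, kb1 u s x y ∂tor1 = 0 := by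
  obtain ⟨B, hB0, hB⟩ := u_bounded u hu hsupp
  unfold kb1
  rw [integral_finsetSum _ fun c _ => intb
    ((ub_continuous u hu hsupp s c).measurable.const_mul _) (C := B * B) fun y => by
      rw [abs_mul]
      exact mul_le_mul (ub_bounded u hB s c x) (ub_bounded u hB s c y) (abs_nonneg _) hB0]
  apply Finset.sum_eq_zero
  intro c hc
  rw [integral_const_mul]
  have h1 := integral_ub_pow u hu hsupp 1 le_rfl s c (Finset.mem_range.mp hc)
  simp only [pow_one] at h1
  rw [h1, hint]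
  simp

theorem integral_kb1_diag (u : ℝ → ℝ) (hu : Continuous u)
    (hsupp : ∀ t, (t ≤ 1 / 10 ∨ 9 / 10 ≤ t) → u t = 0)
    (s : ℕ) : ∫ x, kb1 u s x x ∂tor1 = ∫ t, u t ^ 2 := by
  obtain ⟨B, hB0, hB⟩ := u_bounded u hu hsupp
  unfold kb1
  have hi : ∀ c ∈ range (2 ^ s), Integrable (fun x => ub u s c x * ub u s c x) tor1 :=
    fun c _ => intb
      ((ub_continuous u hu hsupp s c).measurable.mul (ub_continuous u hu hsupp s c).measurable)
      (C := B * B) fun y => by
      rw [abs_mul]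
      exact mul_le_mul (ub_bounded u hB s c y) (ub_bounded u hB s c y) (abs_nonneg _) hB0
  rw [integral_finsetSum _ hi]
  have h1 : ∀ c ∈ range (2 ^ s), ∫ x, ub u s c x * ub u s c x ∂tor1 = (∫ t, u t ^ 2) / 2 ^ s := by
    intro c hc
    rw [← integral_ub_pow u hu hsupp 2 (by norm_num) s c (Finset.mem_range.mp hc)]
    congr 1
    funext x
    ring
  rw [Finset.sum_congr rfl h1]
  simp only [sum_const, card_range, nsmul_eq_mul]
  push_cast
  field_simp

theorem kb_term_bounded {d : ℕ} (u : ℝ → ℝ) {B : ℝ} (hB : ∀ t, |u t| ≤ B) (s : Fin d → ℕ)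
    (x y : Fin d → ℝ) :
    |∏ j, kb1 u (s j) (x j) (y j)| ≤ ∏ j, (2 ^ (s j) * (B * B)) := by
  rw [Finset.abs_prod]
  apply Finset.prod_le_prod
  · intro j _; exact abs_nonneg _
  · intro j _; exact kb1_bounded u hB _ _ _

theorem integral_kb {d : ℕ} (hd : 1 ≤ d) (u : ℝ → ℝ) (hu : Continuous u)
    (hsupp : ∀ t, (t ≤ 1 / 10 ∨ 9 / 10 ≤ t) → u t = 0) (hint : ∫ t, u t = 0)
    (Sh : Finset (Fin d → ℕ)) (x : Fin d → ℝ) : ∫ y, kb u Sh x y ∂(tor d) = 0 := by
  obtain ⟨B, hB0, hB⟩ := u_bounded u hu hsupp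
  unfold kb
  have hm : ∀ s : Fin d → ℕ, Measurable fun y : Fin d → ℝ => ∏ j, kb1 u (s j) (x j) (y j) := by
    intro s
    apply Continuous.measurable
    apply continuous_finsetProd
    intro j _
    exact (kb1_continuous u hu hsupp (s j)).comp (continuous_const.prodMk (continuous_apply j))
  rw [integral_finsetSum _ fun s _ => intb (hm s) fun y => kb_term_bounded u hB s x y]
  apply Finset.sum_eq_zero
  intro s _
  unfold tor
  rw [integral_fintype_prod_eq_prod (fun j (t : ℝ) => kb1 u (s j) (x j) t)]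
  exact Finset.prod_eq_zero (mem_univ (⟨0, hd⟩ : Fin d)) (integral_kb1 u hu hsupp hint _ _)

theorem integral_kb_diag {d : ℕ} (u : ℝ → ℝ) (hu : Continuous u)
    (hsupp : ∀ t, (t ≤ 1 / 10 ∨ 9 / 10 ≤ t) → u t = 0)
    (Sh : Finset (Fin d → ℕ)) : ∫ x, kb u Sh x x ∂(tor d) = (∫ t, u t ^ 2) ^ d * Sh.card := by
  obtain ⟨B, hB0, hB⟩ := u_bounded u hu hsupp
  unfold kb
  have hm : ∀ s : Fin d → ℕ, Measurable fun y : Fin d → ℝ => ∏ j, kb1 u (s j) (y j) (y j) := by
    intro s
    apply Continuous.measurable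
    apply continuous_finsetProd
    intro j _
    have h1 : Continuous fun z : Fin d → ℝ => (z j, z j) :=
      (continuous_apply j).prodMk (continuous_apply j)
    exact (kb1_continuous u hu hsupp (s j)).comp h1
  rw [integral_finsetSum _ fun s _ => intb (hm s) fun y => kb_term_bounded u hB s y y]
  have h1 : ∀ s ∈ Sh, ∫ y, ∏ j, kb1 u (s j) (y j) (y j) ∂(tor d) = (∫ t, u t ^ 2) ^ d := by
    intro s _
    unfold tor
    rw [integral_fintype_prod_eq_prod (fun j (t : ℝ) => kb1 u (s j) t t)]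
    simp only [integral_kb1_diag u hu hsupp, prod_const, card_univ, Fintype.card_fin]
  rw [Finset.sum_congr rfl h1]
  simp [mul_comm]

end Pool.Agent.Helper23.SB
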