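import Pool.Agent.Helper23.SB.L3a

/-!
MP_7fc85e_an, stage 3A, module L7: truncation at the height `K`.
-/

open Finset MeasureTheory
open scoped ENNReal Real

namespace Pool.Agent.Helper23.SB

open Pool.Agent.Helper60.SB Pool.Agent.Helper42.SB Pool.Agent.Helper64.SB

/-! ### the pointwise inequality -/

lemma clip_mono (K : ℝ) {s t : ℝ} (h : s ≤ t) : clip K s ≤ clip K t := by
  unfold clip
  exact max_le_max le_rfl (min_le_min le_rfl h)

lemma clip_eq {K t : ℝ} (h : |t| ≤ K) : clip K t = t := by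
  unfold clip
  rw [abs_le] at h
  rw [min_eq_right h.2, max_eq_right h.1]

lemma clip_term (a b τ K : ℝ) (hτ : 0 < τ) :
    (a - b) ^ 2 - 4 * (if K * τ < |a| then a ^ 2 else 0) -
        4 * (if K * τ < |b| then b ^ 2 else 0) ≤
      τ * (clip K (a / τ) - clip K (b / τ)) * (a - b) := by
  have hnn : 0 ≤ τ * (clip K (a / τ) - clip K (b / τ)) * (a - b) := by
    rw [mul_assoc]
    apply mul_nonneg hτ.le
    rcases le_total a b with h | h
    · have h1 : clip K (a / τ) ≤ clip K (b / τ) := clip_mono K (by gcongr)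
      exact mul_nonneg_of_nonpos_of_nonpos (by linarith) (by linarith)
    · have h1 : clip K (b / τ) ≤ clip K (a / τ) := clip_mono K (by gcongr)
      exact mul_nonneg (by linarith) (by linarith)
  by_cases ha : K * τ < |a|
  · rw [if_pos ha]
    by_cases hb : K * τ < |b|
    · rw [if_pos hb]
      refine le_trans ?_ hnn
      nlinarith [sq_nonneg (a + b), sq_nonneg a, sq_nonneg b]
    · rw [if_neg hb]
      refine le_trans ?_ hnn
      push Not at hb
      have h1 : |b| ≤ |a| := hb.trans ha.le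
      have h2 : b ^ 2 ≤ a ^ 2 := sq_le_sq.mpr h1
      nlinarith [sq_nonneg (a + b)]
  · rw [if_neg ha]
    by_cases hb : K * τ < |b|
    · rw [if_pos hb]
      refine le_trans ?_ hnn
      push Not at ha
      have h1 : |a| ≤ |b| := ha.trans hb.le
      have h2 : a ^ 2 ≤ b ^ 2 := sq_le_sq.mpr h1
      nlinarith [sq_nonneg (a + b)]
    · rw [if_neg hb]
      push Not at ha hb
      have h1 : |a / τ| ≤ K := by
        rw [abs_div, abs_of_pos hτ, div_le_iff₀ hτ]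
        exact ha
      have h2 : |b / τ| ≤ K := by
        rw [abs_div, abs_of_pos hτ, div_le_iff₀ hτ]
        exact hb
      rw [clip_eq h1, clip_eq h2]
      have h3 : τ * (a / τ - b / τ) * (a - b) = (a - b) ^ 2 := by
        field_simp
      rw [h3]
      linarith

theorem clip_pair {ι : Type} (I : Finset ι) (a b τ : ι → ℝ) (K : ℝ) (hK : 0 < K)
    (hτ : ∀ i ∈ I, 0 < τ i) :
    ∑ i ∈ I, (a i - b i) ^ 2 - 4 * ∑ i ∈ I, (if K * τ i < |a i| then a i ^ 2 else 0) -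
        4 * ∑ i ∈ I, (if K * τ i < |b i| then b i ^ 2 else 0) ≤
      ∑ i ∈ I, τ i * (clip K (a i / τ i) - clip K (b i / τ i)) * (a i - b i) := by
  rw [Finset.mul_sum, Finset.mul_sum, ← Finset.sum_sub_distrib, ← Finset.sum_sub_distrib]
  apply Finset.sum_le_sum
  intro i hi
  exact clip_term (a i) (b i) (τ i) K (hτ i hi)

/-! ### the fourth moment -/

section

lemma sum_bdd {Ω : Type} {N : ℕ} {f : Ω → ℝ} {C : ℝ} (hC : ∀ x, |f x| ≤ C) (A : Finset (Fin N)) (Y : Fin N → Ω) :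
    |∑ i ∈ A, f (Y i)| ≤ A.card * C := by
  calc |∑ i ∈ A, f (Y i)| ≤ ∑ i ∈ A, |f (Y i)| := Finset.abs_sum_le_sum_abs _ _
    _ ≤ ∑ i ∈ A, C := Finset.sum_le_sum fun i _ => hC _
    _ = A.card * C := by simp

variable {Ω : Type} [MeasurableSpace Ω] (μ : Measure Ω) [IsProbabilityMeasure μ] {N : ℕ}

lemma sum_meas {f : Ω → ℝ} (hf : Measurable f) (A : Finset (Fin N)) :
    Measurable fun Y : Fin N → Ω => ∑ i ∈ A, f (Y i) :=
  Finset.measurable_sum _ fun i _ => hf.comp (measurable_pi_apply i)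

omit [MeasurableSpace Ω] in
lemma split_bdd {f : Ω → ℝ} {C : ℝ} (hC : ∀ x, |f x| ≤ C) (A : Finset (Fin N)) (a : Fin N)
    (j k : ℕ) (Y : Fin N → Ω) :
    |f (Y a) ^ j * (∑ i ∈ A, f (Y i)) ^ k| ≤ C ^ j * (A.card * C) ^ k := by
  have hC0 : 0 ≤ C := (abs_nonneg _).trans (hC (Y a))
  rw [abs_mul, abs_pow, abs_pow]
  exact mul_le_mul (pow_le_pow_left₀ (abs_nonneg _) (hC _) _)
    (pow_le_pow_left₀ (abs_nonneg _) (sum_bdd hC A Y) _) (by positivity) (by positivity)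

lemma split_meas {f : Ω → ℝ} (hf : Measurable f) (A : Finset (Fin N)) (a : Fin N) (j k : ℕ) :
    Measurable fun Y : Fin N → Ω => f (Y a) ^ j * (∑ i ∈ A, f (Y i)) ^ k :=
  ((hf.comp (measurable_pi_apply a)).pow_const j).mul ((sum_meas hf A).pow_const k)

/-- independence of one coordinate and the others -/
lemma split {f : Ω → ℝ} (hf : Measurable f) {C : ℝ} (hC : ∀ x, |f x| ≤ C) (A : Finset (Fin N))
    (a : Fin N) (ha : a ∉ A) (j k : ℕ) :
    ∫ Y : Fin N → Ω, f (Y a) ^ j * (∑ i ∈ A, f (Y i)) ^ k ∂(Measure.pi fun _ : Fin N => μ) =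
      (∫ x, f x ^ j ∂μ) * ∫ Y : Fin N → Ω, (∑ i ∈ A, f (Y i)) ^ k
        ∂(Measure.pi fun _ : Fin N => μ) := by
  rw [integral_update μ a (split_meas hf A a j k) (split_bdd hC A a j k)]
  have h1 : ∀ (Y : Fin N → Ω) (t : Ω), ∑ i ∈ A, f (Function.update Y a t i) =
      ∑ i ∈ A, f (Y i) := by
    intro Y t
    apply Finset.sum_congr rfl
    intro i hi
    rw [Function.update_of_ne]
    rintro rfl
    exact ha hi
  simp only [h1, Function.update_self]
  simp only [integral_mul_const]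
  rw [integral_const_mul]

lemma one_moment {f : Ω → ℝ} (hf : Measurable f) {C : ℝ} (hC : ∀ x, |f x| ≤ C)
    (h0 : ∫ x, f x ∂μ = 0) (A : Finset (Fin N)) :
    ∫ Y : Fin N → Ω, (∑ i ∈ A, f (Y i)) ∂(Measure.pi fun _ : Fin N => μ) = 0 := by
  have hi : ∀ i ∈ A, Integrable (fun Y : Fin N → Ω => f (Y i)) (Measure.pi fun _ : Fin N => μ) :=
    fun i _ => intb (hf.comp (measurable_pi_apply i)) fun Y => hC (Y i)
  rw [integral_finsetSum _ hi]
  apply Finset.sum_eq_zero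
  intro i _
  rw [integral_coord μ i hf hC, h0]

lemma two_moment {f : Ω → ℝ} (hf : Measurable f) {C : ℝ} (hC : ∀ x, |f x| ≤ C)
    (h0 : ∫ x, f x ∂μ = 0) (A : Finset (Fin N)) :
    ∫ Y : Fin N → Ω, (∑ i ∈ A, f (Y i)) ^ 2 ∂(Measure.pi fun _ : Fin N => μ) =
      A.card * ∫ x, f x ^ 2 ∂μ := by
  induction A using Finset.induction with
  | empty => simp
  | insert a A ha ih =>
    have hi : ∀ j k : ℕ, Integrable (fun Y : Fin N → Ω => f (Y a) ^ j * (∑ i ∈ A, f (Y i)) ^ k)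
        (Measure.pi fun _ : Fin N => μ) :=
      fun j k => intb (split_meas hf A a j k) (split_bdd hC A a j k)
    have h1 : ∀ Y : Fin N → Ω, (∑ i ∈ insert a A, f (Y i)) ^ 2 =
        f (Y a) ^ 2 * (∑ i ∈ A, f (Y i)) ^ 0 + 2 * (f (Y a) ^ 1 * (∑ i ∈ A, f (Y i)) ^ 1) +
          f (Y a) ^ 0 * (∑ i ∈ A, f (Y i)) ^ 2 := by
      intro Y
      rw [Finset.sum_insert ha]
      ring
    simp only [h1]
    have i1 : Integrable (fun Y : Fin N → Ω => 2 * (f (Y a) ^ 1 * (∑ i ∈ A, f (Y i)) ^ 1))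
      (Measure.pi fun _ : Fin N => μ) := (hi 1 1).const_mul 2
    have i2 : Integrable (fun Y : Fin N → Ω => f (Y a) ^ 2 * (∑ i ∈ A, f (Y i)) ^ 0 +
      2 * (f (Y a) ^ 1 * (∑ i ∈ A, f (Y i)) ^ 1)) (Measure.pi fun _ : Fin N => μ) := (hi 2 0).add i1
    rw [integral_add i2 (hi 0 2),
      integral_add (hi 2 0) i1, integral_const_mul, split μ hf hC A a ha,
      split μ hf hC A a ha, split μ hf hC A a ha, ih, Finset.card_insert_of_notMem ha]
    simp only [pow_one, pow_zero, h0, zero_mul, mul_zero, integral_const, probReal_univ, one_smul]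
    push_cast
    ring

lemma four_moment {f : Ω → ℝ} (hf : Measurable f) {C : ℝ} (hC : ∀ x, |f x| ≤ C)
    (h0 : ∫ x, f x ∂μ = 0) (A : Finset (Fin N)) :
    ∫ Y : Fin N → Ω, (∑ i ∈ A, f (Y i)) ^ 4 ∂(Measure.pi fun _ : Fin N => μ) =
      A.card * ∫ x, f x ^ 4 ∂μ + 3 * A.card * (A.card - 1) * (∫ x, f x ^ 2 ∂μ) ^ 2 := by
  induction A using Finset.induction with
  | empty => simp
  | insert a A ha ih =>
    have hi : ∀ j k : ℕ, Integrable (fun Y : Fin N → Ω => f (Y a) ^ j * (∑ i ∈ A, f (Y i)) ^ k)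
        (Measure.pi fun _ : Fin N => μ) :=
      fun j k => intb (split_meas hf A a j k) (split_bdd hC A a j k)
    have h1 : ∀ Y : Fin N → Ω, (∑ i ∈ insert a A, f (Y i)) ^ 4 =
        f (Y a) ^ 4 * (∑ i ∈ A, f (Y i)) ^ 0 + (4 * (f (Y a) ^ 3 * (∑ i ∈ A, f (Y i)) ^ 1) +
          (6 * (f (Y a) ^ 2 * (∑ i ∈ A, f (Y i)) ^ 2) +
          (4 * (f (Y a) ^ 1 * (∑ i ∈ A, f (Y i)) ^ 3) +
          f (Y a) ^ 0 * (∑ i ∈ A, f (Y i)) ^ 4))) := by
      intro Y
      rw [Finset.sum_insert ha]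
      ring
    simp only [h1]
    have i1 : Integrable (fun Y : Fin N → Ω => 4 * (f (Y a) ^ 1 * (∑ i ∈ A, f (Y i)) ^ 3))
      (Measure.pi fun _ : Fin N => μ) := (hi 1 3).const_mul 4
    have i2 : Integrable (fun Y : Fin N → Ω => 6 * (f (Y a) ^ 2 * (∑ i ∈ A, f (Y i)) ^ 2))
      (Measure.pi fun _ : Fin N => μ) := (hi 2 2).const_mul 6
    have i3 : Integrable (fun Y : Fin N → Ω => 4 * (f (Y a) ^ 3 * (∑ i ∈ A, f (Y i)) ^ 1))
      (Measure.pi fun _ : Fin N => μ) := (hi 3 1).const_mul 4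
    have j1 : Integrable (fun Y : Fin N → Ω => 4 * (f (Y a) ^ 1 * (∑ i ∈ A, f (Y i)) ^ 3) +
      f (Y a) ^ 0 * (∑ i ∈ A, f (Y i)) ^ 4) (Measure.pi fun _ : Fin N => μ) := i1.add (hi 0 4)
    have j2 : Integrable (fun Y : Fin N → Ω => 6 * (f (Y a) ^ 2 * (∑ i ∈ A, f (Y i)) ^ 2) +
      (4 * (f (Y a) ^ 1 * (∑ i ∈ A, f (Y i)) ^ 3) +
      f (Y a) ^ 0 * (∑ i ∈ A, f (Y i)) ^ 4)) (Measure.pi fun _ : Fin N => μ) := i2.add j1
    have j3 : Integrable (fun Y : Fin N → Ω => 4 * (f (Y a) ^ 3 * (∑ i ∈ A, f (Y i)) ^ 1) +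
      (6 * (f (Y a) ^ 2 * (∑ i ∈ A, f (Y i)) ^ 2) +
      (4 * (f (Y a) ^ 1 * (∑ i ∈ A, f (Y i)) ^ 3) +
      f (Y a) ^ 0 * (∑ i ∈ A, f (Y i)) ^ 4))) (Measure.pi fun _ : Fin N => μ) := i3.add j2
    rw [integral_add (hi 4 0) j3, integral_add i3 j2, integral_add i2 j1,
      integral_add i1 (hi 0 4), integral_const_mul, integral_const_mul,
      integral_const_mul, split μ hf hC A a ha, split μ hf hC A a ha, split μ hf hC A a ha,
      split μ hf hC A a ha, split μ hf hC A a ha, ih, two_moment μ hf hC h0 A,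
      Finset.card_insert_of_notMem ha]
    simp only [pow_one, pow_zero, h0, zero_mul, mul_zero, integral_const, probReal_univ, one_smul,
      one_moment μ hf hC h0 A]
    push_cast
    ring

end

/-! ### the blocks -/

lemma sblk_continuous {d : ℕ} (u : ℝ → ℝ) (hu : Continuous u)
    (hsupp : ∀ t, (t ≤ 1 / 10 ∨ 9 / 10 ≤ t) → u t = 0) (s c : Fin d → ℕ) :
    Continuous (sblk u s c) := by
  unfold sblk
  apply continuous_finsetProd
  intro j _
  exact (ub_continuous u hu hsupp (s j) (c j)).comp (continuous_apply j)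

lemma sblk_le {d : ℕ} (u : ℝ → ℝ) (hu1 : ∀ t, |u t| ≤ 1) (s c : Fin d → ℕ) (x : Fin d → ℝ) :
    |sblk u s c x| ≤ 1 := by
  unfold sblk
  rw [Finset.abs_prod]
  exact Finset.prod_le_one (fun j _ => abs_nonneg _) fun j _ => hu1 _

lemma integral_sblk_pow {d : ℕ} (u : ℝ → ℝ) (hu : Continuous u)
    (hsupp : ∀ t, (t ≤ 1 / 10 ∨ 9 / 10 ≤ t) → u t = 0) (k : ℕ) (hk : 1 ≤ k) (s c : Fin d → ℕ)
    (hc : c ∈ cells s) :
    ∫ x, sblk u s c x ^ k ∂(tor d) = (∫ t, u t ^ k) ^ d / 2 ^ (∑ j, s j) := by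
  unfold sblk tor
  simp only [← Finset.prod_pow]
  rw [integral_fintype_prod_eq_prod (fun j (t : ℝ) => ub u (s j) (c j) t ^ k)]
  have h1 : ∀ j, ∫ x, ub u (s j) (c j) x ^ k ∂tor1 = (∫ t, u t ^ k) / 2 ^ (s j) := by
    intro j
    have h2 : c j ∈ range (2 ^ s j) := by
      unfold cells at hc
      exact Fintype.mem_piFinset.mp hc j
    exact integral_ub_pow u hu hsupp k hk (s j) (c j) (Finset.mem_range.mp h2)
  simp only [h1, Finset.prod_div_distrib, Finset.prod_const, Finset.card_univ, Fintype.card_fin,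
    Finset.prod_pow_eq_pow_sum]

lemma integral_u_pow (u : ℝ → ℝ) (hu : Continuous u) (hu1 : ∀ t, |u t| ≤ 1)
    (hsupp : ∀ t, (t ≤ 1 / 10 ∨ 9 / 10 ≤ t) → u t = 0) (k : ℕ) (hk : 1 ≤ k) :
    0 ≤ (∫ t, u t ^ (2 * k)) ∧ (∫ t, u t ^ (2 * k)) ≤ 1 := by
  constructor
  · apply integral_nonneg
    intro t
    simp only [Pi.zero_apply]
    rw [pow_mul]
    positivity
  · have h1 : (∫ t, u t ^ (2 * k)) = ∫ t in Set.Icc (0 : ℝ) 1, u t ^ (2 * k) := by
      rw [← integral_indicator measurableSet_Icc]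
      congr 1
      funext t
      by_cases ht : t ∈ Set.Icc (0 : ℝ) 1
      · rw [Set.indicator_of_mem ht]
      · rw [Set.indicator_of_notMem ht]
        have h3 : u t = 0 := by
          apply hsupp
          simp only [Set.mem_Icc, not_and_or, not_le] at ht
          rcases ht with h | h
          · left; linarith
          · right; linarith
        rw [h3, zero_pow (by omega)]
    rw [h1]
    calc ∫ t in Set.Icc (0 : ℝ) 1, u t ^ (2 * k) ≤ ∫ t in Set.Icc (0 : ℝ) 1, (1 : ℝ) := by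
          apply setIntegral_mono_on
          · exact (hu.pow _).continuousOn.integrableOn_Icc
          · exact integrableOn_const (by simp)
          · exact measurableSet_Icc
          · intro t _
            calc u t ^ (2 * k) ≤ |u t ^ (2 * k)| := le_abs_self _
              _ = |u t| ^ (2 * k) := abs_pow _ _
              _ ≤ 1 := pow_le_one₀ (abs_nonneg _) (hu1 t)
      _ = 1 := by simp

lemma SX_meas {d N : ℕ} (u : ℝ → ℝ) (hu : Continuous u)
    (hsupp : ∀ t, (t ≤ 1 / 10 ∨ 9 / 10 ≤ t) → u t = 0) (s c : Fin d → ℕ) :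
    Measurable fun X : Fin N → Fin d → ℝ => SX u X s c := by
  unfold SX
  exact sum_meas (sblk_continuous u hu hsupp s c).measurable univ

lemma SX_le {d N : ℕ} (u : ℝ → ℝ) (hu1 : ∀ t, |u t| ≤ 1) (s c : Fin d → ℕ)
    (X : Fin N → Fin d → ℝ) : |SX u X s c| ≤ N := by
  unfold SX
  have h := sum_bdd (sblk_le u hu1 s c) univ X
  simpa using h

lemma fourth_le (e : ℕ) (u : ℝ → ℝ) (hu : Continuous u) (hu1 : ∀ t, |u t| ≤ 1)
    (hsupp : ∀ t, (t ≤ 1 / 10 ∨ 9 / 10 ≤ t) → u t = 0) (hint : ∫ t, u t = 0)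
    (N : ℕ) (s c : Fin (e + 1) → ℕ) (hN : 2 ^ (∑ j, s j) ≤ N) (hc : c ∈ cells s) :
    ∫ X : Fin N → Fin (e + 1) → ℝ, SX u X s c ^ 4 ∂(Measure.pi fun _ : Fin N => tor (e + 1)) ≤
      4 * (N / 2 ^ (∑ j, s j)) ^ 2 := by
  have hm := (sblk_continuous u hu hsupp s c).measurable
  have h0 : ∫ x, sblk u s c x ∂(tor (e + 1)) = 0 := by
    have h := integral_sblk_pow u hu hsupp 1 le_rfl s c hc
    simp only [pow_one] at h
    rw [h, hint, zero_pow (by omega), zero_div]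
  have h4 := four_moment (tor (e + 1)) (N := N) hm (sblk_le u hu1 s c) h0 univ
  unfold SX
  rw [h4, integral_sblk_pow u hu hsupp 4 (by norm_num) s c hc,
    integral_sblk_pow u hu hsupp 2 (by norm_num) s c hc, Finset.card_univ, Fintype.card_fin]
  have hp : (0 : ℝ) < 2 ^ (∑ j, s j) := by positivity
  have hN' : (2 : ℝ) ^ (∑ j, s j) ≤ N := by exact_mod_cast hN
  obtain ⟨a0, a1⟩ := integral_u_pow u hu hu1 hsupp 2 (by norm_num)
  obtain ⟨b0, b1⟩ := integral_u_pow u hu hu1 hsupp 1 le_rfl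
  norm_num at a0 a1 b0 b1
  have hA : (∫ t, u t ^ 4) ^ (e + 1) / 2 ^ (∑ j, s j) ≤ 1 / 2 ^ (∑ j, s j) := by
    gcongr
    exact pow_le_one₀ a0 a1
  have hB : ((∫ t, u t ^ 2) ^ (e + 1) / 2 ^ (∑ j, s j)) ^ 2 ≤ (1 / 2 ^ (∑ j, s j)) ^ 2 := by
    apply pow_le_pow_left₀
    · positivity
    · gcongr
      exact pow_le_one₀ b0 b1
  have hN1 : (1 : ℝ) ≤ N := by
    have : (1 : ℝ) ≤ 2 ^ (∑ j, s j) := one_le_pow₀ (by norm_num)
    linarith
  calc (N : ℝ) * ((∫ t, u t ^ 4) ^ (e + 1) / 2 ^ (∑ j, s j)) +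
        3 * (N : ℝ) * ((N : ℝ) - 1) * ((∫ t, u t ^ 2) ^ (e + 1) / 2 ^ (∑ j, s j)) ^ 2
      ≤ (N : ℝ) * (1 / 2 ^ (∑ j, s j)) +
        3 * (N : ℝ) * ((N : ℝ) - 1) * (1 / 2 ^ (∑ j, s j)) ^ 2 := by
        apply add_le_add
        · exact mul_le_mul_of_nonneg_left hA (by positivity)
        · apply mul_le_mul_of_nonneg_left hB
          have : (0 : ℝ) ≤ N - 1 := by linarith
          positivity
    _ ≤ 4 * ((N : ℝ) / 2 ^ (∑ j, s j)) ^ 2 := by
        have h1 : (N : ℝ) * (1 / 2 ^ (∑ j, s j)) ≤ ((N : ℝ) / 2 ^ (∑ j, s j)) ^ 2 := by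
          rw [div_pow, mul_one_div, div_le_div_iff₀ hp (by positivity)]
          have h3 : (N : ℝ) * 2 ^ (∑ j, s j) * 2 ^ (∑ j, s j) ≤ N * 2 ^ (∑ j, s j) * N :=
            mul_le_mul_of_nonneg_left hN' (by positivity)
          nlinarith
        have h2 : 3 * (N : ℝ) * ((N : ℝ) - 1) * (1 / 2 ^ (∑ j, s j)) ^ 2 ≤
            3 * ((N : ℝ) / 2 ^ (∑ j, s j)) ^ 2 := by
          rw [div_pow, div_pow, one_pow, mul_one_div, ← mul_div_assoc]
          apply div_le_div_of_nonneg_right _ (by positivity)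
          nlinarith
        linarith

lemma trunc_le {x κ : ℝ} (hκ : 0 < κ) :
    (if κ < |x| then x ^ 2 else 0) ≤ x ^ 4 / κ ^ 2 := by
  split_ifs with h
  · rw [le_div_iff₀ (by positivity)]
    have h1 : κ ^ 2 ≤ |x| ^ 2 := pow_le_pow_left₀ hκ.le h.le 2
    rw [sq_abs] at h1
    nlinarith [sq_nonneg x]
  · positivity

lemma card_cells {d : ℕ} (s : Fin d → ℕ) : (cells s).card = 2 ^ (∑ j, s j) := by
  unfold cells
  rw [Fintype.card_piFinset]
  simp [Finset.prod_pow_eq_pow_sum]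

lemma trunc_meas {d N : ℕ} (u : ℝ → ℝ) (hu : Continuous u)
    (hsupp : ∀ t, (t ≤ 1 / 10 ∨ 9 / 10 ≤ t) → u t = 0) (s c : Fin d → ℕ) (κ : ℝ) :
    Measurable fun X : Fin N → Fin d → ℝ =>
      (if κ < |SX u X s c| then SX u X s c ^ 2 else 0) := by
  apply Measurable.ite
  · exact measurableSet_lt measurable_const (SX_meas u hu hsupp s c).abs
  · exact (SX_meas u hu hsupp s c).pow_const 2
  · exact measurable_const

lemma trunc_int {d N : ℕ} (u : ℝ → ℝ) (hu : Continuous u) (hu1 : ∀ t, |u t| ≤ 1)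
    (hsupp : ∀ t, (t ≤ 1 / 10 ∨ 9 / 10 ≤ t) → u t = 0) (s c : Fin d → ℕ) (κ : ℝ) :
    Integrable (fun X : Fin N → Fin d → ℝ =>
      (if κ < |SX u X s c| then SX u X s c ^ 2 else 0)) (Measure.pi fun _ : Fin N => tor d) := by
  refine Integrable.of_bound (trunc_meas u hu hsupp s c κ).aestronglyMeasurable ((N : ℝ) ^ 2)
    (ae_of_all _ fun X => ?_)
  have h := SX_le u hu1 s c X
  rw [Real.norm_eq_abs]
  split_ifs
  · rw [abs_pow]
    exact pow_le_pow_left₀ (abs_nonneg _) h 2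
  · rw [abs_zero]
    positivity

theorem EK_le (e : ℕ) (u : ℝ → ℝ) (hu : Continuous u) (hu1 : ∀ t, |u t| ≤ 1)
    (hsupp : ∀ t, (t ≤ 1 / 10 ∨ 9 / 10 ≤ t) → u t = 0) (hint : ∫ t, u t = 0)
    (m₀ m₁ N : ℕ) (hN : 2 ^ m₁ ≤ N) (K : ℝ) (hK : 0 < K) :
    Integrable (fun X : Fin N → Fin (e + 1) → ℝ => ∑ s ∈ Shp e m₀ m₁, ∑ c ∈ cells s,
      (if K * Real.sqrt (N / 2 ^ (∑ j, s j)) < |SX u X s c| then SX u X s c ^ 2 else 0))
      (Measure.pi fun _ : Fin N => tor (e + 1)) ∧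
    ∫ X : Fin N → Fin (e + 1) → ℝ, ∑ s ∈ Shp e m₀ m₁, ∑ c ∈ cells s,
      (if K * Real.sqrt (N / 2 ^ (∑ j, s j)) < |SX u X s c| then SX u X s c ^ 2 else 0)
      ∂(Measure.pi fun _ : Fin N => tor (e + 1)) ≤ 4 * N * (Shp e m₀ m₁).card / K ^ 2 := by
  have hi1 : ∀ s : Fin (e + 1) → ℕ, Integrable (fun X : Fin N → Fin (e + 1) → ℝ =>
      ∑ c ∈ cells s,
      (if K * Real.sqrt (N / 2 ^ (∑ j, s j)) < |SX u X s c| then SX u X s c ^ 2 else 0))
      (Measure.pi fun _ : Fin N => tor (e + 1)) :=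
    fun s => integrable_finsetSum _ fun c _ => trunc_int u hu hu1 hsupp s c _
  refine ⟨integrable_finsetSum _ fun s _ => hi1 s, ?_⟩
  rw [integral_finsetSum _ fun s _ => hi1 s]
  have hN1 : (1 : ℝ) ≤ N := by
    have h1 : 1 ≤ N := le_trans Nat.one_le_two_pow hN
    exact_mod_cast h1
  have key : ∀ s ∈ Shp e m₀ m₁, ∫ X : Fin N → Fin (e + 1) → ℝ, ∑ c ∈ cells s,
      (if K * Real.sqrt (N / 2 ^ (∑ j, s j)) < |SX u X s c| then SX u X s c ^ 2 else 0)
      ∂(Measure.pi fun _ : Fin N => tor (e + 1)) ≤ 4 * N / K ^ 2 := by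
    intro s hs
    have hsm : ∑ j, s j ≤ m₁ := by
      unfold Shp at hs
      exact (Finset.mem_filter.mp hs).2.2
    have hNs : 2 ^ (∑ j, s j) ≤ N := le_trans (Nat.pow_le_pow_right (by norm_num) hsm) hN
    rw [integral_finsetSum _ fun c _ => trunc_int u hu hu1 hsupp s c _]
    have hp : (0 : ℝ) < 2 ^ (∑ j, s j) := by positivity
    have hτ : (0 : ℝ) < N / 2 ^ (∑ j, s j) := by positivity
    have hκ : 0 < K * Real.sqrt (N / 2 ^ (∑ j, s j)) := mul_pos hK (Real.sqrt_pos.mpr hτ)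
    have h1 : ∀ c ∈ cells s, ∫ X : Fin N → Fin (e + 1) → ℝ,
        (if K * Real.sqrt (N / 2 ^ (∑ j, s j)) < |SX u X s c| then SX u X s c ^ 2 else 0)
        ∂(Measure.pi fun _ : Fin N => tor (e + 1)) ≤ 4 * (N / 2 ^ (∑ j, s j)) / K ^ 2 := by
      intro c hc
      have h4 := fourth_le e u hu hu1 hsupp hint N s c hNs hc
      have hi4 : Integrable (fun X : Fin N → Fin (e + 1) → ℝ => SX u X s c ^ 4 /
          (K * Real.sqrt (N / 2 ^ (∑ j, s j))) ^ 2) (Measure.pi fun _ : Fin N => tor (e + 1)) := by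
        refine Integrable.of_bound
          (((SX_meas u hu hsupp s c).pow_const 4).div_const _).aestronglyMeasurable
          ((N : ℝ) ^ 4 / (K * Real.sqrt (N / 2 ^ (∑ j, s j))) ^ 2) (ae_of_all _ fun X => ?_)
        rw [Real.norm_eq_abs, abs_div, abs_pow, abs_of_pos (pow_pos hκ 2)]
        gcongr
        exact SX_le u hu1 s c X
      calc ∫ X : Fin N → Fin (e + 1) → ℝ,
          (if K * Real.sqrt (N / 2 ^ (∑ j, s j)) < |SX u X s c| then SX u X s c ^ 2 else 0)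
          ∂(Measure.pi fun _ : Fin N => tor (e + 1))
          ≤ ∫ X : Fin N → Fin (e + 1) → ℝ, SX u X s c ^ 4 /
            (K * Real.sqrt (N / 2 ^ (∑ j, s j))) ^ 2 ∂(Measure.pi fun _ : Fin N => tor (e + 1)) :=
            integral_mono (trunc_int u hu hu1 hsupp s c _) hi4 fun X => trunc_le hκ
        _ = (∫ X : Fin N → Fin (e + 1) → ℝ, SX u X s c ^ 4
            ∂(Measure.pi fun _ : Fin N => tor (e + 1))) /
            (K * Real.sqrt (N / 2 ^ (∑ j, s j))) ^ 2 := integral_div _ _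
        _ ≤ 4 * (N / 2 ^ (∑ j, s j)) ^ 2 / (K * Real.sqrt (N / 2 ^ (∑ j, s j))) ^ 2 := by
            gcongr
        _ = 4 * (N / 2 ^ (∑ j, s j)) / K ^ 2 := by
            rw [mul_pow, Real.sq_sqrt hτ.le]
            field_simp
    calc ∑ c ∈ cells s, ∫ X : Fin N → Fin (e + 1) → ℝ,
        (if K * Real.sqrt (N / 2 ^ (∑ j, s j)) < |SX u X s c| then SX u X s c ^ 2 else 0)
        ∂(Measure.pi fun _ : Fin N => tor (e + 1))
        ≤ ∑ c ∈ cells s, 4 * (N / 2 ^ (∑ j, s j)) / K ^ 2 := Finset.sum_le_sum h1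
      _ = 4 * N / K ^ 2 := by
          rw [Finset.sum_const, card_cells, nsmul_eq_mul]
          push_cast
          field_simp
  calc ∑ s ∈ Shp e m₀ m₁, ∫ X : Fin N → Fin (e + 1) → ℝ, ∑ c ∈ cells s,
      (if K * Real.sqrt (N / 2 ^ (∑ j, s j)) < |SX u X s c| then SX u X s c ^ 2 else 0)
      ∂(Measure.pi fun _ : Fin N => tor (e + 1))
      ≤ ∑ s ∈ Shp e m₀ m₁, 4 * (N : ℝ) / K ^ 2 := Finset.sum_le_sum key
    _ = 4 * N * (Shp e m₀ m₁).card / K ^ 2 := by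
        rw [Finset.sum_const, nsmul_eq_mul]
        ring

end Pool.Agent.Helper23.SB
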